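import Pool.Agent.Lib.MP_1c0d65_gt.Flow.Sym

/-! The flow map from the fibres near the origin to the fibre over one. -/

set_option autoImplicit false

namespace Pool.Agent.Lib.MP_1c0d65_gt.Flow

open Set Filter Topology Function Complex Metric
open scoped ContDiff ComplexConjugate

noncomputable section

variable {p : ℕ}

theorem fl_thim (hp : 2 ≤ p) {a : C3} {s : ℝ} (hs : 0 ≤ s) :
    fl p (s, a) ∈ thim p ↔ a ∈ thim p := by
  rw [mem_thim, mem_thim, im_zp]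
  have h3 := v_anti (p := p) a hs
  have h4 := zp_anti (p := p) a hs
  simp only [fl_zero] at h3 h4
  refine ⟨fun ⟨h1, h2, h5⟩ => ⟨v_back hs h1, h2, ?_⟩,
    fun ⟨h1, h2, h5⟩ => ⟨norm_le_zero_iff.1 (by simpa [h1] using h3), h2, h4.trans h5⟩⟩
  by_contra! h
  have hc : Continuous fun s => ((fl p (s, a)).2.2 ^ p).re :=
    continuous_iff_continuousAt.2 fun s => ((re_im (dzp a)).1 s).continuousAt
  obtain ⟨r, -, e⟩ := intermediate_value_Icc' hs hc.continuousOn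
    (show (0 : ℝ) ∈ _ from ⟨h5, by simpa only [fl_zero] using h.le⟩)
  have h6 : (fl p (r, a)).2.2 ^ p = 0 := Complex.ext e ((im_zp a r).trans h2)
  have h7 := fl_z hp (eq_zero_of_pow_eq_zero h6) (-r)
  rw [fl_neg] at h7
  simp [h7, show p ≠ 0 by omega] at h

theorem back_small (hp : 2 ≤ p) {δ : ℝ} (hδ : 0 < δ) : ∀ᶠ a in 𝓝 (0 : C3), ∀ s ≤ 0,
    0 ≤ (fP p (fl p (s, a))).re → ‖fl p (s, a)‖ < δ := by
  obtain ⟨ε, hε, h⟩ := big (p := p) hδ
  have h1 : 0 < min (ε / 2) (min 1 (ε ^ 2 / 5)) := by positivity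
  filter_upwards [tiny hp h1] with a ⟨a1, _, a3, _⟩ s hs h0
  obtain ⟨η, hη, b1, b2, b3, a1, a3⟩ : ∃ η > 0, η ≤ ε / 2 ∧ η ≤ 1 ∧ η ≤ ε ^ 2 / 5 ∧
      ‖uu a‖ < η ∧ ‖a.2.2 ^ p‖ < η := ⟨_, h1, min_le_left _ _,
    (min_le_right _ _).trans (min_le_left _ _), (min_le_right _ _).trans (min_le_right _ _), a1, a3⟩
  have h3 := u_mono (p := p) a hs
  have h4 := zp_anti (p := p) a hs
  simp only [fl_zero] at h3 h4
  have h5 := re_fP (p := p) (fl p (s, a))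
  have h6 := (abs_le.1 (abs_re_le_norm (a.2.2 ^ p))).1
  have h7 := abs_im_le_norm (a.2.2 ^ p)
  have h8 : ‖uu (fl p (s, a))‖ ^ 2 < η := by nlinarith [norm_nonneg (uu (fl p (s, a)))]
  have h9 := sq_nonneg ‖vv (fl p (s, a))‖
  refine h _ (by linarith) (lt_of_pow_lt_pow_left₀ 2 hε.le (by linarith)) ?_
  refine (norm_le_abs_re_add_abs_im _).trans_lt ?_
  rw [im_zp]
  have : |((fl p (s, a)).2.2 ^ p).re| < η := abs_lt.2 ⟨by linarith, by linarith⟩
  linarith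

theorem thim_small {δ : ℝ} (hδ : 0 < δ) : ∃ t > 0, ∀ a ∈ thim p, (fP p a).re ≤ t → ‖a‖ < δ := by
  obtain ⟨ε, hε, h⟩ := big (p := p) hδ
  refine ⟨min (ε / 2) (ε ^ 2 / 5), by positivity, fun a ha ht => ?_⟩
  obtain ⟨h1, h2, h3⟩ := mem_thim.1 ha
  obtain ⟨h4, h5⟩ := le_min_iff.1 ht
  have h6 := re_fP (p := p) a
  rw [h1, norm_zero] at h6
  have h7 := sq_nonneg ‖uu a‖
  refine h _ (lt_of_pow_lt_pow_left₀ 2 hε.le (by nlinarith)) (by simpa [h1] using hε) ?_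
  refine (norm_le_abs_re_add_abs_im _).trans_lt ?_
  rw [h2, abs_zero, add_zero, abs_of_nonpos h3]
  linarith

theorem near_core (hp : 2 ≤ p) {U : Set C3} (hU : IsOpen U) (h : core p ⊆ U) : ∃ ε > 0, ∀ b,
    fP p b = 1 → ‖vv b‖ < ε → |(b.2.2 ^ p).im| < ε → (b.2.2 ^ p).re < ε → b ∈ U := by
  let g : C3 → ℝ := fun b => max ‖vv b‖ (max |(b.2.2 ^ p).im| (b.2.2 ^ p).re)
  have hg : Continuous g := cont_v.norm.max (by fun_prop)
  have hK : IsCompact ((closedBall (0 : C3) 3 ∩ fP p ⁻¹' {1}) \ U) :=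
    ((isCompact_closedBall 0 3).inter_right (isClosed_singleton.preimage sm_fP.continuous)).diff hU
  obtain ⟨ε, hε, h1⟩ := hK.exists_forall_le' (a := 0) hg.continuousOn fun b hb => by
    by_contra! h2
    simp only [g, max_le_iff] at h2
    exact hb.2 (h ⟨mem_thim.2 ⟨norm_le_zero_iff.1 h2.1, abs_nonpos_iff.1 h2.2.1, h2.2.2⟩, hb.1.2⟩)
  refine ⟨min ε 1, by positivity, fun b e b1 b2 b3 => ?_⟩
  rw [lt_min_iff] at b1 b2 b3
  by_contra hb
  have h2 := re_fP (p := p) b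
  rw [e, one_re] at h2
  have h3 : ‖vv b‖ ^ 2 < 1 := by nlinarith [norm_nonneg (vv b)]
  have h4 : ‖uu b‖ < 3 := lt_of_pow_lt_pow_left₀ 2 (by norm_num) (by linarith)
  have h5 := norm_xy b
  have h6 : ‖b.2.2‖ ≤ 3 := by
    have c1 := norm_le_abs_re_add_abs_im (b.2.2 ^ p)
    have c2 : |(b.2.2 ^ p).re| < 2 := abs_lt.2 ⟨by nlinarith [sq_nonneg ‖uu b‖], by linarith⟩
    by_contra! c3
    have c4 := le_self_pow₀ (a := ‖b.2.2‖) (by linarith) (show p ≠ 0 by omega)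
    rw [← norm_pow] at c4
    linarith
  have h7 := h1 b ⟨⟨by
    rw [mem_closedBall_zero_iff, Prod.norm_def, Prod.norm_def, max_le_iff, max_le_iff]
    exact ⟨by linarith, by linarith, h6⟩, e⟩, hb⟩
  exact h7.not_gt (max_lt b1.1 (max_lt b2.1 b3.1))

theorem dom_le (hp : 2 ≤ p) {a : C3} (ha : a ∈ dom p (1 / 2)) : (fP p a).re ≤ 1 := by
  have h1 := norm_fst_le a
  have h2 := (norm_fst_le a.2).trans (norm_snd_le a)
  have h3 := norm_zp (p := p) a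
  have h4 : ‖a‖ < 1 / 2 := ha.1
  have h5 := pow_le_of_le_one (norm_nonneg a) (by linarith) (show p ≠ 0 by omega)
  have h6 := (re_le_norm (fP p a)).trans (norm_sub_le (a.1 * a.2.1) (a.2.2 ^ p))
  rw [norm_mul] at h6
  nlinarith [norm_nonneg a.1, norm_nonneg a.2.1]

theorem dom_time (hp : 2 ≤ p) {a : C3} (ha : a ∈ dom p (1 / 2)) : (1, a) ∈ Dm p ∧
    ∃ s, 0 ≤ s ∧ th p (1, a) = fl p (s, a) ∧ fP p (fl p (s, a)) = 1 := by
  obtain ⟨s, hs, e⟩ := reach_up hp ha.2.1 ha.2.2.2 (dom_le hp ha)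
  exact ⟨mem_Dm.2 ⟨ha.2.1, s, e⟩, s, hs, th_eq hp ha.2.1 e,
    Complex.ext e ((im_fP a s).trans ha.2.2.1)⟩

theorem onto (hp : 2 ≤ p) {δ : ℝ} (hδ : 0 < δ) : ∃ U, IsOpen U ∧ core p ⊆ U ∧ ∃ t0 > 0, ∀ b ∈ U,
    fP p b = 1 → ∀ t : ℝ, 0 ≤ t → t ≤ t0 → (t = 0 → b ∉ core p) →
      (t, b) ∈ Dm p ∧ ‖th p (t, b)‖ < δ := by
  obtain ⟨η, hη, h1⟩ := Metric.eventually_nhds_iff.1 (back_small hp hδ)
  obtain ⟨t1, ht1, h2⟩ := thim_small (p := p) hη
  set t0 := min t1 1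
  have h0 : 0 < t0 := by positivity
  have hne : ∀ b, fP p b = 1 → b ≠ 0 := fun b e h => by
    simp [h, fP, show p ≠ 0 by omega] at e
  have hle : ∀ b, fP p b = 1 → t0 ≤ (fP p b).re := fun b e => by
    rw [e]; exact min_le_right _ _
  refine ⟨Prod.mk t0 ⁻¹' (Dm p ∩ th p ⁻¹' ball 0 η),
    ((sm_th hp).continuousOn.isOpen_inter_preimage (isOpen_Dm hp) isOpen_ball).preimage
      (by fun_prop), fun b hb => ?_, t0, h0, fun b hb e t c0 c1 c2 => ?_⟩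
  · obtain ⟨s, hs, c⟩ := reach_down hp (hle b hb.2) h0.le fun h => absurd h h0.ne'
    refine ⟨mem_Dm.2 ⟨hne b hb.2, s, c⟩, ?_⟩
    rw [mem_preimage, th_eq hp (hne b hb.2) c, mem_ball_zero_iff]
    refine h2 _ ((fl_thim hp (neg_nonneg.2 hs)).1 ?_) (c.trans_le (min_le_left _ _))
    rw [fl_neg]; exact hb.1
  · obtain ⟨s, -, c⟩ := reach_down hp (c1.trans (hle b e)) c0 fun h h' => c2 h ⟨h', e⟩
    obtain ⟨-, r, d⟩ := mem_Dm.1 hb.1
    have c3 : dist (th p (t0, b)) 0 < η := hb.2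
    rw [th_eq hp (hne b e) d] at c3
    have c4 : s ≤ r := (re_mono hp (hne b e)).le_iff_le.1 (by simp only [c, d]; exact c1)
    have c5 := h1 c3 (s - r) (sub_nonpos.2 c4)
    rw [← fl_add, sub_add_cancel, c] at c5
    exact ⟨mem_Dm.2 ⟨hne b e, s, c⟩, by rw [th_eq hp (hne b e) c]; exact c5 c0⟩

theorem flowMap (hp : 2 ≤ p) : FlowMap p (1 / 2) fun a => th p (1, a) where
  smooth a ha := ((sm_th hp).contDiffAt ((isOpen_Dm hp).mem_nhds (dom_time hp ha).1)).comp a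
    (contDiffAt_const.prodMk contDiffAt_id)
  level a ha := by
    filter_upwards [((isOpen_Dm hp).preimage (Continuous.prodMk_right 1)).mem_nhds
      (dom_time hp ha).1] with b hb
    simpa using th_level hp hb
  sympl a ha v w hv hw := th_sympl hp (dom_time hp ha).1 v w (by simp [hv]) (by simp [hw])
  equiv a ha q ζ h := (th_ac hp (norm_eq_one_of_pow_eq_one h (by omega))
    (d := ζ ^ q) (by rw [← pow_mul, mul_comm, pow_mul, h, one_pow]) (dom_time hp ha).1).2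
  inj a ha b hb e h := by
    have h1 := (th_back hp (dom_time hp ha).1).2
    rw [e, show th p (1, a) = th p (1, b) from h, (th_back hp (dom_time hp hb).1).2] at h1
    exact h1.symm
  core a ha := by
    obtain ⟨-, s, hs, e1, e2⟩ := dom_time hp ha
    rw [e1, ← fl_thim hp hs]
    exact and_iff_left e2
  near U hU h := by
    obtain ⟨ε, hε, h1⟩ := near_core hp hU h
    obtain ⟨δ, hδ, h2⟩ := Metric.eventually_nhds_iff.1 (tiny hp hε)
    refine ⟨δ, hδ, fun a ha hn => ?_⟩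
    obtain ⟨-, s, hs, e1, e2⟩ := dom_time hp ha
    obtain ⟨-, c1, c2, -⟩ := h2 (y := a) (by simpa using hn)
    have h3 := v_anti (p := p) a hs
    have h4 := zp_anti (p := p) a hs
    simp only [fl_zero] at h3 h4
    rw [e1]
    exact h1 _ e2 (h3.trans_lt c1) (by rw [im_zp]; exact (abs_im_le_norm _).trans_lt c2)
      (h4.trans_lt ((re_le_norm _).trans_lt c2))
  onto δ hδ := by
    obtain ⟨U, hU, h1, t0, h0, h2⟩ := onto hp (lt_min hδ one_half_pos)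
    refine ⟨U, hU, h1, t0, h0, fun b hb e t c0 c1 c2 => ?_⟩
    obtain ⟨c3, c4⟩ := h2 b hb e t c0 c1 c2
    have c5 : fP p (th p (t, b)) = t := by simpa [e] using th_level hp c3
    rw [lt_min_iff] at c4
    exact ⟨_, ⟨c4.2, th_ne hp c3, by simp [c5], by simpa [c5] using c0⟩, c4.1, c5,
      by simpa [e] using (th_back hp c3).2⟩

/-- The core, described by norms. -/
theorem mem_core {a : C3} : a ∈ core p ↔ a.1 * a.2.1 = a.2.2 ^ p + 1 ∧ ‖a.1‖ = ‖a.2.1‖ ∧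
    (a.2.2 ^ p).im = 0 ∧ (a.2.2 ^ p).re ∈ Icc (-1 : ℝ) 0 := by
  have e : fP p a = 1 ↔ a.1 * a.2.1 = a.2.2 ^ p + 1 := sub_eq_iff_eq_add'
  refine ⟨fun ⟨⟨h1, h2, h3⟩, h4⟩ => ⟨e.1 h4, by rw [h1, RCLike.norm_conj], h2, ?_, h3⟩,
    fun ⟨h1, h2, h3, h4, h5⟩ => ⟨⟨?_, h3, h5⟩, e.2 h1⟩⟩
  · have := congrArg re (e.1 h4)
    rw [h1, mul_conj, ofReal_re, add_re, one_re] at this
    linarith [normSq_nonneg a.1]
  · by_cases h0 : a.1 = 0
    · rw [h0, norm_zero] at h2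
      rw [norm_eq_zero.1 h2.symm, h0, map_zero]
    have c1 : a.1 * a.2.1 = ((a.2.2 ^ p).re + 1 : ℝ) := by
      rw [h1]; exact Complex.ext (by simp) (by simpa using h3)
    have c2 := congrArg norm c1
    rw [norm_mul, ← h2, norm_real, Real.norm_of_nonneg (by linarith), ← sq] at c2
    refine mul_left_cancel₀ h0 ?_
    rw [c1, mul_conj', ← c2, ofReal_pow]

end

end Pool.Agent.Lib.MP_1c0d65_gt.Flow

namespace Pool.Agent.Lib.MP_1c0d65_gt

/-- The gradient flow of the real part of x y - z ^ p, up to the level 1. -/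
theorem exists_flowMap {p : ℕ} (hp : 2 ≤ p) : ∃ ε > 0, ∃ Φ, FlowMap p ε Φ :=
  ⟨_, one_half_pos, _, Flow.flowMap hp⟩

end Pool.Agent.Lib.MP_1c0d65_gt
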