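import Pool.Agent.Lib.MP_1c0d65_gt.Flow.Gen
import Pool.Agent.Lib.MP_1c0d65_gt.Df.Loc

/-! The normalised gradient flow of the real part of x y - z ^ p and its invariants. -/

set_option autoImplicit false

namespace Pool.Agent.Lib.MP_1c0d65_gt.Flow

open Set Filter Topology Function Complex
open scoped ContDiff ComplexConjugate

noncomputable section

/-- The gradient. -/
def gr (p : ℕ) (a : C3) : C3 := (conj a.2.1, conj a.1, -conj (p * a.2.2 ^ (p - 1)))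

/-- The square of its length. -/
def nn (p : ℕ) (a : C3) : ℝ := ‖a.1‖ ^ 2 + ‖a.2.1‖ ^ 2 + ‖p * a.2.2 ^ (p - 1)‖ ^ 2

/-- The normalising factor. -/
def rho (p : ℕ) (a : C3) : ℝ := (1 + nn p a)⁻¹

/-- The bounded vector field. -/
def vf (p : ℕ) (a : C3) : C3 := rho p a • gr p a

variable {p : ℕ}

theorem nn_nonneg (a : C3) : 0 ≤ nn p a := by unfold nn; positivity

theorem rho_pos (a : C3) : 0 < rho p a := by have := nn_nonneg (p := p) a; unfold rho; positivity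

theorem rho_le (a : C3) : rho p a ≤ 1 :=
  inv_le_one_of_one_le₀ (by linarith [nn_nonneg (p := p) a])

theorem sm_z : ContDiff ℝ ∞ fun a : C3 => (p : ℂ) * a.2.2 ^ (p - 1) :=
  contDiff_const.mul ((contDiff_snd.snd).pow _)

theorem sm_gr : ContDiff ℝ ∞ (gr p) :=
  (conjCLE.contDiff.comp contDiff_snd.fst).prodMk ((conjCLE.contDiff.comp contDiff_fst).prodMk
    (conjCLE.contDiff.comp sm_z).neg)

theorem sm_nn : ContDiff ℝ ∞ (nn p) :=
  ((contDiff_fst.norm_sq ℂ).add (contDiff_snd.fst.norm_sq ℂ)).add (sm_z.norm_sq ℂ)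

theorem sm_rho : ContDiff ℝ ∞ (rho p) :=
  (contDiff_const.add sm_nn).inv fun a => by linarith [nn_nonneg (p := p) a]

theorem sm_vf : ContDiff ℝ ∞ (vf p) := sm_rho.smul sm_gr

theorem sm_fP : ContDiff ℝ ∞ (fP p) :=
  (contDiff_fst.mul contDiff_snd.fst).sub (contDiff_snd.snd.pow _)

theorem norm_vf (a : C3) : ‖vf p a‖ ≤ 1 := by
  have h0 := nn_nonneg (p := p) a
  rw [vf, norm_smul, Real.norm_of_nonneg (rho_pos a).le, rho, inv_mul_le_iff₀ (by linarith),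
    mul_one]
  simp only [gr, Prod.norm_mk, norm_neg, RCLike.norm_conj, max_le_iff, nn]
  refine ⟨?_, ?_, ?_⟩ <;>
    nlinarith [sq_nonneg ‖a.1‖, sq_nonneg ‖a.2.1‖, sq_nonneg ‖p * a.2.2 ^ (p - 1)‖,
      sq_nonneg (‖a.1‖ - 1), sq_nonneg (‖a.2.1‖ - 1), sq_nonneg (‖p * a.2.2 ^ (p - 1)‖ - 1)]

/-- The flow. -/
def fl (p : ℕ) : ℝ × C3 → C3 := (MP_0cc5e8_gt.flowExists (sm_vf (p := p)) norm_vf).choose

theorem sm_fl : ContDiff ℝ ∞ (fl p) :=
  (MP_0cc5e8_gt.flowExists (sm_vf (p := p)) norm_vf).choose_spec.1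

theorem fl_zero (a : C3) : fl p (0, a) = a :=
  (MP_0cc5e8_gt.flowExists (sm_vf (p := p)) norm_vf).choose_spec.2.1 a

theorem fl_deriv (a : C3) (s : ℝ) : HasDerivAt (fun s => fl p (s, a)) (vf p (fl p (s, a))) s :=
  (MP_0cc5e8_gt.flowExists (sm_vf (p := p)) norm_vf).choose_spec.2.2 a s

theorem lip_vf : MMT.LipB (vf p) := MP_0cc5e8_gt.flowLipB (sm_vf.of_le (by simp))

theorem fl_add (s t : ℝ) (a : C3) : fl p (t + s, a) = fl p (t, fl p (s, a)) :=
  MMT.flow_add (Φ := fun t a => fl p (t, a)) lip_vf fl_zero fl_deriv s t a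

theorem fl_neg (s : ℝ) (a : C3) : fl p (-s, fl p (s, a)) = a := by
  rw [← fl_add, neg_add_cancel, fl_zero]

theorem vf_zero (hp : 2 ≤ p) : vf p 0 = 0 := by
  have : p - 1 ≠ 0 := by omega
  simp [vf, gr, this]

theorem fl_ne (hp : 2 ≤ p) {a : C3} (ha : a ≠ 0) (s : ℝ) : fl p (s, a) ≠ 0 := fun h => by
  have := MMT.uniq_global lip_vf (fl_deriv (p := p) 0) (y := fun _ => 0)
    (fun t => by rw [vf_zero hp]; exact hasDerivAt_const t 0) (fl_zero 0) (-s)
  exact ha (by rw [← fl_neg (p := p) s a, h, this])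

theorem nn_pos {a : C3} (hp : 2 ≤ p) (ha : a ≠ 0) : 0 < nn p a := by
  refine (nn_nonneg a).lt_of_ne fun h => ha ?_
  unfold nn at h
  have h1 : ‖a.1‖ ^ 2 = 0 := by
    nlinarith [sq_nonneg ‖a.1‖, sq_nonneg ‖a.2.1‖, sq_nonneg ‖p * a.2.2 ^ (p - 1)‖]
  have h2 : ‖a.2.1‖ ^ 2 = 0 := by
    nlinarith [sq_nonneg ‖a.1‖, sq_nonneg ‖a.2.1‖, sq_nonneg ‖p * a.2.2 ^ (p - 1)‖]
  have h3 : ‖p * a.2.2 ^ (p - 1)‖ ^ 2 = 0 := by linarith
  have h4 : (p : ℂ) ≠ 0 := by exact_mod_cast (by omega : p ≠ 0)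
  simp only [ne_eq, OfNat.ofNat_ne_zero, not_false_eq_true, pow_eq_zero_iff, norm_eq_zero,
    mul_eq_zero, h4, false_or] at h1 h2 h3
  exact Prod.ext h1 (Prod.ext h2 (pow_eq_zero_iff (by omega) |>.1 h3))

/-- The linear action of a pair of numbers. -/
def ac (c d : ℂ) : C3 →L[ℝ] C3 :=
  (c • ContinuousLinearMap.fst ℝ ℂ (ℂ × ℂ)).prod
    (((c⁻¹ • ContinuousLinearMap.fst ℝ ℂ ℂ).prod (d • ContinuousLinearMap.snd ℝ ℂ ℂ)).comp
      (ContinuousLinearMap.snd ℝ ℂ (ℂ × ℂ)))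

theorem ac_apply (c d : ℂ) (a : C3) : ac c d a = (c * a.1, c⁻¹ * a.2.1, d * a.2.2) := rfl

theorem fP_ac {c d : ℂ} (hc : ‖c‖ = 1) (hd : d ^ p = 1) (a : C3) : fP p (ac c d a) = fP p a := by
  have : c ≠ 0 := fun h => by simp [h] at hc
  simp only [fP, ac_apply, mul_pow, hd]
  field_simp

theorem vf_ac (hp : 2 ≤ p) {c d : ℂ} (hc : ‖c‖ = 1) (hd : d ^ p = 1) (a : C3) :
    vf p (ac c d a) = ac c d (vf p a) := by
  have h1 : ‖d‖ = 1 := norm_eq_one_of_pow_eq_one hd (by omega)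
  have h2 : rho p (ac c d a) = rho p a := by
    simp [rho, nn, ac_apply, hc, h1]
  have h3 : conj c = c⁻¹ := (inv_eq_conj hc).symm
  have h4 : conj d ^ (p - 1) = d := by
    have h0 : d ≠ 0 := fun h => by simp [h] at h1
    rw [← inv_eq_conj h1, inv_pow, inv_eq_iff_eq_inv, eq_comm, inv_eq_iff_eq_inv, eq_comm]
    refine inv_eq_of_mul_eq_one_right ?_
    rw [← pow_succ, Nat.sub_add_cancel (by omega), hd]
  rw [vf, vf, map_smul, h2]
  congr 1
  simp only [gr, ac_apply, map_mul, map_inv₀, h3, inv_inv, mul_pow, map_pow, h4]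
  congr 2
  ring

theorem fl_ac (hp : 2 ≤ p) {c d : ℂ} (hc : ‖c‖ = 1) (hd : d ^ p = 1) (s : ℝ) (a : C3) :
    fl p (s, ac c d a) = ac c d (fl p (s, a)) :=
  MMT.uniq_global lip_vf (fl_deriv (p := p) _) (y := fun s => ac c d (fl p (s, a)))
    (fun t => by
      rw [vf_ac hp hc hd]; exact (ac c d).hasFDerivAt.comp_hasDerivAt t (fl_deriv a t))
    (by simp only [fl_zero]) s

theorem fl_z (hp : 2 ≤ p) {a : C3} (ha : a.2.2 = 0) (s : ℝ) : (fl p (s, a)).2.2 = 0 := by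
  have hd := isPrimitiveRoot_exp p (by omega)
  set d := cexp (2 * Real.pi * I / p)
  have h1 : ac 1 d a = a := by simp [ac_apply, ha, Prod.ext_iff]
  have h2 := fl_ac hp norm_one hd.pow_eq_one s a
  rw [h1] at h2
  have h3 : (fl p (s, a)).2.2 = d * (fl p (s, a)).2.2 := congrArg (fun b : C3 => b.2.2) h2
  by_contra h
  exact hd.ne_one (by omega) (mul_right_cancel₀ h (h3.symm.trans (one_mul _).symm))

section
variable (a : C3) (s : ℝ)

theorem dx : HasDerivAt (fun s => (fl p (s, a)).1)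
    (rho p (fl p (s, a)) • conj (fl p (s, a)).2.1) s :=
  (ContinuousLinearMap.fst ℝ ℂ (ℂ × ℂ)).hasFDerivAt.comp_hasDerivAt s (fl_deriv a s)

theorem dyz : HasDerivAt (fun s => (fl p (s, a)).2) (vf p (fl p (s, a))).2 s :=
  (ContinuousLinearMap.snd ℝ ℂ (ℂ × ℂ)).hasFDerivAt.comp_hasDerivAt s (fl_deriv a s)

theorem dy : HasDerivAt (fun s => (fl p (s, a)).2.1)
    (rho p (fl p (s, a)) • conj (fl p (s, a)).1) s :=
  (ContinuousLinearMap.fst ℝ ℂ ℂ).hasFDerivAt.comp_hasDerivAt s (dyz a s)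

theorem dz : HasDerivAt (fun s => (fl p (s, a)).2.2)
    (rho p (fl p (s, a)) • -conj (p * (fl p (s, a)).2.2 ^ (p - 1))) s :=
  (ContinuousLinearMap.snd ℝ ℂ ℂ).hasFDerivAt.comp_hasDerivAt s (dyz a s)

theorem dzp : HasDerivAt (fun s => (fl p (s, a)).2.2 ^ p)
    ((-(rho p (fl p (s, a)) * ‖p * (fl p (s, a)).2.2 ^ (p - 1)‖ ^ 2) : ℝ) : ℂ) s := by
  refine ((dz a s).fun_pow p).congr_deriv ?_
  rw [real_smul, ofReal_neg, ofReal_mul, ofReal_pow, ← mul_conj']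
  ring

theorem dfP : HasDerivAt (fun s => fP p (fl p (s, a)))
    ((rho p (fl p (s, a)) * nn p (fl p (s, a)) : ℝ) : ℂ) s := by
  refine (((dx a s).fun_mul (dy a s)).fun_sub (dzp a s)).congr_deriv ?_
  simp only [nn, real_smul, ofReal_neg, ofReal_mul, ofReal_pow, ofReal_add, ← mul_conj']
  ring

end

theorem re_im {f : ℝ → ℂ} {c : ℝ → ℝ} (h : ∀ s, HasDerivAt f (c s : ℂ) s) :
    (∀ s, HasDerivAt (fun s => (f s).re) (c s) s) ∧ ∀ s, (f s).im = (f 0).im := by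
  refine ⟨fun s => reCLM.hasFDerivAt.comp_hasDerivAt s (h s), fun s => ?_⟩
  have h1 : ∀ s, HasDerivAt (fun s => (f s).im) 0 s := fun s =>
    imCLM.hasFDerivAt.comp_hasDerivAt s (h s)
  exact is_const_of_deriv_eq_zero (fun s => (h1 s).differentiableAt) (fun s => (h1 s).deriv) s 0

theorem nsq {f : ℝ → ℂ} {c s : ℝ} (h : HasDerivAt f (c • f s) s) :
    HasDerivAt (fun s => ‖f s‖ ^ 2) (2 * (c * ‖f s‖ ^ 2)) s := by
  have := h.norm_sq
  rwa [inner_smul_right, real_inner_self_eq_norm_sq] at this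

/-- The expanding coordinate. -/
def uu (a : C3) : ℂ := a.1 + conj a.2.1

/-- The contracting coordinate. -/
def vv (a : C3) : ℂ := a.1 - conj a.2.1

theorem dre (a : C3) (s : ℝ) : HasDerivAt (fun s => (fP p (fl p (s, a))).re)
    (rho p (fl p (s, a)) * nn p (fl p (s, a))) s := (re_im (dfP a)).1 s

theorem im_fP (a : C3) (s : ℝ) : (fP p (fl p (s, a))).im = (fP p a).im := by
  rw [(re_im (dfP a)).2 s, fl_zero]

theorem im_zp (a : C3) (s : ℝ) : ((fl p (s, a)).2.2 ^ p).im = (a.2.2 ^ p).im := by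
  rw [(re_im (dzp a)).2 s, fl_zero]

theorem re_mono (hp : 2 ≤ p) {a : C3} (ha : a ≠ 0) :
    StrictMono fun s => (fP p (fl p (s, a))).re :=
  strictMono_of_hasDerivAt_pos (dre a) fun s => mul_pos (rho_pos _) (nn_pos hp (fl_ne hp ha s))

theorem zp_anti (a : C3) : Antitone fun s => ((fl p (s, a)).2.2 ^ p).re :=
  antitone_of_hasDerivAt_nonpos (re_im (dzp a)).1 fun _ =>
    neg_nonpos.2 (mul_nonneg (rho_pos _).le (sq_nonneg _))

theorem du (a : C3) (s : ℝ) : HasDerivAt (fun s => uu (fl p (s, a)))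
    (rho p (fl p (s, a)) • uu (fl p (s, a))) s := by
  refine ((dx a s).fun_add (conjCLE.hasFDerivAt.comp_hasDerivAt s (dy a s))).congr_deriv ?_
  simp [uu]; ring

theorem dv (a : C3) (s : ℝ) : HasDerivAt (fun s => vv (fl p (s, a)))
    ((-rho p (fl p (s, a))) • vv (fl p (s, a))) s := by
  refine ((dx a s).fun_sub (conjCLE.hasFDerivAt.comp_hasDerivAt s (dy a s))).congr_deriv ?_
  simp [vv]; ring

theorem u_mono (a : C3) : Monotone fun s => ‖uu (fl p (s, a))‖ := fun _ _ h =>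
  (pow_le_pow_iff_left₀ (norm_nonneg _) (norm_nonneg _) two_ne_zero).1
    (monotone_of_hasDerivAt_nonneg (fun s => nsq (du a s))
      (fun _ => mul_nonneg two_pos.le (mul_nonneg (rho_pos _).le (sq_nonneg _))) h)

theorem v_anti (a : C3) : Antitone fun s => ‖vv (fl p (s, a))‖ := fun _ _ h =>
  (pow_le_pow_iff_left₀ (norm_nonneg _) (norm_nonneg _) two_ne_zero).1
    (antitone_of_hasDerivAt_nonpos (fun s => nsq (dv a s))
      (fun _ => mul_nonpos_of_nonneg_of_nonpos two_pos.le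
        (mul_nonpos_of_nonpos_of_nonneg (neg_nonpos.2 (rho_pos _).le) (sq_nonneg _))) h)

theorem v_back {a : C3} {s : ℝ} (hs : 0 ≤ s) (h : vv (fl p (s, a)) = 0) : vv a = 0 := by
  have h1 : ∀ s, HasDerivAt (fun s => ‖vv (fl p (s, a))‖ ^ 2 * Real.exp (2 * s))
      (2 * (1 - rho p (fl p (s, a))) * ‖vv (fl p (s, a))‖ ^ 2 * Real.exp (2 * s)) s := fun s => by
    refine ((nsq (dv a s)).fun_mul ((hasDerivAt_id s).const_mul 2).exp).congr_deriv ?_
    simp only [id]; ring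
  have h2 := monotone_of_hasDerivAt_nonneg h1 (fun s => by
    have := sub_nonneg.2 (rho_le (p := p) (fl p (s, a)))
    simp only [Pi.zero_apply]; positivity) hs
  simp only [h, fl_zero, mul_zero, Real.exp_zero, mul_one, norm_zero] at h2
  exact norm_eq_zero.1 (by nlinarith [norm_nonneg (vv a)])

theorem re_xy (a : C3) : 4 * (a.1 * a.2.1).re = ‖uu a‖ ^ 2 - ‖vv a‖ ^ 2 := by
  simp only [Complex.sq_norm, normSq_apply, uu, vv, mul_re, add_re, add_im, sub_re, sub_im,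
    conj_re, conj_im]
  ring

theorem norm_u (a : C3) : ‖uu a‖ ≤ 2 * ‖a‖ := by
  have h1 := norm_fst_le a
  have h2 := (norm_fst_le a.2).trans (norm_snd_le a)
  have h3 := norm_add_le a.1 (conj a.2.1)
  rw [RCLike.norm_conj] at h3
  unfold uu; linarith

theorem norm_v (a : C3) : ‖vv a‖ ≤ 2 * ‖a‖ := by
  have h1 := norm_fst_le a
  have h2 := (norm_fst_le a.2).trans (norm_snd_le a)
  have h3 := norm_sub_le a.1 (conj a.2.1)
  rw [RCLike.norm_conj] at h3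
  unfold vv; linarith

theorem norm_zp (a : C3) : ‖a.2.2 ^ p‖ ≤ ‖a‖ ^ p := by
  rw [norm_pow]
  exact pow_le_pow_left₀ (norm_nonneg _) ((norm_snd_le a.2).trans (norm_snd_le a)) p

theorem norm_xy (a : C3) : 2 * ‖a.1‖ ≤ ‖uu a‖ + ‖vv a‖ ∧ 2 * ‖a.2.1‖ ≤ ‖uu a‖ + ‖vv a‖ := by
  have h1 := norm_add_le (uu a) (vv a)
  have h2 := norm_sub_le (uu a) (vv a)
  rw [show uu a + vv a = 2 * a.1 by unfold uu vv; ring] at h1
  rw [show uu a - vv a = 2 * conj a.2.1 by unfold uu vv; ring] at h2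
  simpa using And.intro h1 h2

end

end Pool.Agent.Lib.MP_1c0d65_gt.Flow
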