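import Pool.Agent.Lib.MP_0cc5e8_gt.FlowA

/-! General facts on smooth flows: the variational equation, the smooth inverse of an injective
local diffeomorphism. -/

set_option autoImplicit false

namespace Pool.Agent.Lib.MP_1c0d65_gt.Flow

open Set Filter Topology Function
open scoped ContDiff

variable {E : Type} [NormedAddCommGroup E] [NormedSpace ℝ E]

theorem hasDerivAt_slice {G : Type} [NormedAddCommGroup G] [NormedSpace ℝ G] {F : ℝ × E → G}
    {s : ℝ} {a : E} (hF : DifferentiableAt ℝ F (s, a)) :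
    HasDerivAt (fun s => F (s, a)) (fderiv ℝ F (s, a) (1, 0)) s :=
  hF.hasFDerivAt.comp_hasDerivAt s ((hasDerivAt_id s).prodMk (hasDerivAt_const s a))

/-- The variational equation. -/
theorem variational {F : ℝ × E → E} (hF : ContDiff ℝ ∞ F) {V : E → E} (hV : Differentiable ℝ V)
    (hd : ∀ a s, HasDerivAt (fun s => F (s, a)) (V (F (s, a))) s) (a ξ : E) (s : ℝ) :
    HasDerivAt (fun s => fderiv ℝ F (s, a) (0, ξ))
      (fderiv ℝ V (F (s, a)) (fderiv ℝ F (s, a) (0, ξ))) s := by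
  have h1 : Differentiable ℝ F := hF.differentiable (by simp)
  have h2 : Differentiable ℝ (fderiv ℝ F) :=
    (hF.fderiv_right (m := 1) (by rw [one_add_one_eq_two]; exact WithTop.coe_le_coe.2 (le_top (a := (2 : ℕ∞))))).differentiable one_ne_zero
  have h3 : (fun q => fderiv ℝ F q (1, 0)) = V ∘ F := funext fun q =>
    (hasDerivAt_slice (h1 (q.1, q.2))).unique (hd q.2 q.1)
  have h4 : ∀ v : ℝ × E, HasFDerivAt (fun q => fderiv ℝ F q v)
      ((fderiv ℝ (fderiv ℝ F) (s, a)).flip v) (s, a) := fun v => by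
    have := (ContinuousLinearMap.apply ℝ E v).hasFDerivAt.comp (s, a) (h2 (s, a)).hasFDerivAt
    exact this
  have h5 := (h4 (0, ξ)).comp_hasDerivAt s ((hasDerivAt_id s).prodMk (hasDerivAt_const s a))
  have h6 := (hF.contDiffAt (x := (s, a))).isSymmSndFDerivAt
    (by simp only [minSmoothness_of_isRCLikeNormedField]; exact WithTop.coe_le_coe.2 (le_top (a := (2 : ℕ∞))))
  have h7 := h4 (1, 0)
  rw [h3] at h7
  have h8 := h7.unique ((hV _).hasFDerivAt.comp (s, a) (h1 _).hasFDerivAt)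
  have h9 : (fderiv ℝ (fderiv ℝ F) (s, a)).flip (0, ξ) (1, 0) =
      fderiv ℝ V (F (s, a)) (fderiv ℝ F (s, a) (0, ξ)) := by
    rw [ContinuousLinearMap.flip_apply, h6.eq, ← ContinuousLinearMap.flip_apply, h8]; rfl
  rw [← h9]
  exact h5

/-- An injective local diffeomorphism has an open image and a smooth inverse. -/
theorem inv_smooth [CompleteSpace E] {H : E → E} {S : Set E} (hS : IsOpen S)
    (hH : ContDiff ℝ ∞ H) (inj : InjOn H S)
    (hd : ∀ x ∈ S, ∃ e : E ≃L[ℝ] E, HasFDerivAt H (e : E →L[ℝ] E) x) :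
    IsOpen (H '' S) ∧ ContDiffOn ℝ ∞ (invFunOn H S) (H '' S) := by
  have key : ∀ x ∈ S, (∀ᶠ y in 𝓝 (H x), y ∈ H '' S) ∧ ContDiffAt ℝ ∞ (invFunOn H S) (H x) := by
    intro x hx
    obtain ⟨e, he⟩ := hd x hx
    have hc := hH.contDiffAt (x := x)
    have hn : (∞ : WithTop ℕ∞) ≠ 0 := by simp
    have hs := hc.hasStrictFDerivAt' he hn
    have h1 : ContDiffAt ℝ ∞ (hc.localInverse he hn) (H x) := hc.to_localInverse he hn
    have h2 : ∀ᶠ y in 𝓝 (H x), H (hc.localInverse he hn y) = y := hs.eventually_right_inverse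
    have h3 : ∀ᶠ y in 𝓝 (H x), hc.localInverse he hn y ∈ S := by
      refine h1.continuousAt.eventually_mem ?_
      rw [hc.localInverse_apply_image he hn]
      exact hS.mem_nhds hx
    refine ⟨by filter_upwards [h2, h3] with y a b using ⟨_, b, a⟩, h1.congr_of_eventuallyEq ?_⟩
    filter_upwards [h2, h3] with y a b
    exact inj (invFunOn_mem ⟨_, b, a⟩) b ((invFunOn_eq ⟨_, b, a⟩).trans a.symm)
  refine ⟨isOpen_iff_mem_nhds.2 ?_, ?_⟩
  · rintro _ ⟨x, hx, rfl⟩
    exact (key x hx).1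
  · rintro _ ⟨x, hx, rfl⟩
    exact (key x hx).2.contDiffWithinAt

/-- A function with derivative `m / (1 + m)` that is bounded above has small values of `m`. -/
theorem exists_small {m φ : ℝ → ℝ} (h0 : ∀ s, 0 ≤ m s)
    (hφ : ∀ s, HasDerivAt φ ((1 + m s)⁻¹ * m s) s) {M : ℝ} (hM : ∀ s, 0 ≤ s → φ s ≤ M) {δ : ℝ}
    (hδ : 0 < δ) : ∃ s, 0 ≤ s ∧ m s < δ := by
  by_contra! h
  set c := (1 + δ)⁻¹ * δ with hc
  have hc0 : 0 < c := by positivity
  have hm : MonotoneOn (fun s => φ s - c * s) (Ici 0) := by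
    have hd : ∀ s, HasDerivAt (fun s => φ s - c * s) ((1 + m s)⁻¹ * m s - c) s := fun s => by
      simpa using (hφ s).fun_sub ((hasDerivAt_id s).const_mul c)
    refine monotoneOn_of_deriv_nonneg (convex_Ici 0)
      (fun s _ => (hd s).continuousAt.continuousWithinAt)
      (fun s _ => (hd s).differentiableAt.differentiableWithinAt) fun s hs => ?_
    have h1 := h s (interior_subset hs)
    have h2 := h0 s
    rw [(hd s).deriv, sub_nonneg, hc, ← div_eq_inv_mul, ← div_eq_inv_mul,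
      div_le_div_iff₀ (by positivity) (by positivity)]
    nlinarith
  have h1 : 0 ≤ (M - φ 0 + 1) / c := by have := hM 0 le_rfl; apply div_nonneg <;> linarith
  have h2 := hm (mem_Ici.2 le_rfl) h1 h1
  have h3 := hM _ h1
  simp only [mul_zero, sub_zero, mul_div_cancel₀ _ hc0.ne'] at h2
  linarith

end Pool.Agent.Lib.MP_1c0d65_gt.Flow
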