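import Pool.Agent.Lib.MP_1c0d65_gt.Flow.Theta

/-! The flow is symplectic on the fibres. -/

set_option autoImplicit false

namespace Pool.Agent.Lib.MP_1c0d65_gt.Flow

open Set Filter Topology Function Complex
open scoped ContDiff ComplexConjugate

noncomputable section

variable {p : ℕ}

theorem fderiv_fP (a v : C3) :
    fderiv ℝ (fP p) a v = a.2.1 * v.1 + a.1 * v.2.1 - p * a.2.2 ^ (p - 1) * v.2.2 := by
  have h := (((hasFDerivAt_fst (𝕜 := ℝ) (p := a)).fun_mul hasFDerivAt_snd.fst).fun_sub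
    ((hasFDerivAt_snd (𝕜 := ℝ) (p := a)).snd.pow p)).fderiv
  rw [show fderiv ℝ (fP p) a = _ from h]
  simp
  ring

theorem fderiv_gr (a : C3) : ∃ k : ℂ, ∀ v : C3,
    fderiv ℝ (gr p) a v = (conj v.2.1, conj v.1, -conj (k * v.2.2)) := by
  have h := ((conjCLE.hasFDerivAt.comp a (hasFDerivAt_snd (𝕜 := ℝ) (p := a)).fst).prodMk
    ((conjCLE.hasFDerivAt.comp a hasFDerivAt_fst).prodMk (conjCLE.hasFDerivAt.comp a
      (((hasFDerivAt_snd (𝕜 := ℝ) (p := a)).snd.pow (p - 1)).const_mul (p : ℂ))).fun_neg)).fderiv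
  refine ⟨p * ((p - 1 : ℕ) * a.2.2 ^ (p - 1 - 1)), fun v => ?_⟩
  rw [show fderiv ℝ (gr p) a = _ from h]
  simp [mul_assoc]

theorem om3_gr (a w : C3) : om3 (gr p a) w = (fderiv ℝ (fP p) a w).im := by
  rw [fderiv_fP]
  simp only [om3, gr, conj_conj, map_neg, neg_mul, neg_im, sub_im, add_im]
  ring

theorem om3_anti (v w : C3) : om3 v w = -om3 w v := by
  simp [om3]; ring

theorem om3_add (r : ℝ) (u v w : C3) : om3 (r • u + v) w = r * om3 u w + om3 v w := by
  simp [om3]; ring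

theorem om3_smul (r : ℝ) (u w : C3) : om3 (r • u) w = r * om3 u w := by
  simp [om3]; ring

theorem om3_dvf (a v w : C3) (hv : (fderiv ℝ (fP p) a v).im = 0)
    (hw : (fderiv ℝ (fP p) a w).im = 0) :
    om3 (fderiv ℝ (vf p) a v) w + om3 v (fderiv ℝ (vf p) a w) = 0 := by
  obtain ⟨k, hk⟩ := fderiv_gr (p := p) a
  have h : ∀ v, fderiv ℝ (vf p) a v =
      fderiv ℝ (rho p) a v • gr p a + rho p a • fderiv ℝ (gr p) a v := fun v => by
    rw [show fderiv ℝ (vf p) a = _ from fderiv_fun_smul (sm_rho.differentiable (by simp) a)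
      (sm_gr.differentiable (by simp) a)]
    simp [add_comm]
  rw [om3_anti v, h, h, om3_add, om3_add, om3_gr, om3_gr, hv, hw, om3_smul, om3_smul, hk, hk]
  simp [om3]; ring

theorem om3_deriv {f g : ℝ → C3} {f' g' : C3} {s : ℝ} (hf : HasDerivAt f f' s)
    (hg : HasDerivAt g g' s) :
    HasDerivAt (fun s => om3 (f s) (g s)) (om3 f' (g s) + om3 (f s) g') s := by
  have key : ∀ L : C3 →L[ℝ] ℂ, HasDerivAt (fun s => (conj (L (f s)) * L (g s)).im)
      ((conj (L f') * L (g s) + conj (L (f s)) * L g').im) s := fun L =>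
    imCLM.hasFDerivAt.comp_hasDerivAt s ((conjCLE.hasFDerivAt.comp_hasDerivAt s
      (L.hasFDerivAt.comp_hasDerivAt s hf)).fun_mul (L.hasFDerivAt.comp_hasDerivAt s hg))
  refine (((key (.fst ℝ _ _)).fun_add (key ((ContinuousLinearMap.fst ℝ _ _).comp
    (.snd ℝ _ _)))).fun_add (key ((ContinuousLinearMap.snd ℝ _ _).comp (.snd ℝ _ _)))).congr_deriv ?_
  simp [om3]; ring

theorem fderiv_slice {G : Type} [NormedAddCommGroup G] [NormedSpace ℝ G] {F : ℝ × C3 → G}
    {s : ℝ} {a : C3} (hF : DifferentiableAt ℝ F (s, a)) (v : C3) :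
    fderiv ℝ (fun b => F (s, b)) a v = fderiv ℝ F (s, a) (0, v) := by
  rw [show fderiv ℝ (fun b => F (s, b)) a = _ from
    (hF.hasFDerivAt.comp a (hasFDerivAt_prodMk_right s a)).fderiv]
  rfl

theorem im_dfl (s : ℝ) (a v : C3) :
    (fderiv ℝ (fP p) (fl p (s, a)) (fderiv ℝ (fl p) (s, a) (0, v))).im =
      (fderiv ℝ (fP p) a v).im := by
  have h0 : Differentiable ℝ (fP p) := sm_fP.differentiable (by simp)
  have h1 := imCLM.hasFDerivAt.comp (s, a) ((h0 _).hasFDerivAt.comp (s, a)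
    ((sm_fl (p := p)).differentiable (by simp) (s, a)).hasFDerivAt)
  have h2 := imCLM.hasFDerivAt.comp (s, a) ((h0 _).hasFDerivAt.comp (s, a)
    (hasFDerivAt_snd (𝕜 := ℝ) (p := (s, a))))
  have h3 : imCLM ∘ fP p ∘ fl p = imCLM ∘ fP p ∘ Prod.snd := funext fun q => im_fP q.2 q.1
  rw [h3] at h1
  exact congrArg (fun L => L (0, v)) (h1.unique h2)

theorem fl_sympl (s : ℝ) (a v w : C3) (hv : (fderiv ℝ (fP p) a v).im = 0)
    (hw : (fderiv ℝ (fP p) a w).im = 0) :
    om3 (fderiv ℝ (fl p) (s, a) (0, v)) (fderiv ℝ (fl p) (s, a) (0, w)) = om3 v w := by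
  have hd : Differentiable ℝ (vf p) := sm_vf.differentiable (by simp)
  have h1 : ∀ s, HasDerivAt (fun s => om3 (fderiv ℝ (fl p) (s, a) (0, v))
      (fderiv ℝ (fl p) (s, a) (0, w))) 0 s := fun s =>
    (om3_deriv (variational sm_fl hd fl_deriv a v s)
      (variational sm_fl hd fl_deriv a w s)).congr_deriv
      (om3_dvf _ _ _ ((im_dfl s a v).trans hv) ((im_dfl s a w).trans hw))
  have h2 : ∀ v, fderiv ℝ (fl p) (0, a) (0, v) = v := fun v => by
    rw [← fderiv_slice (sm_fl.differentiable (by simp) _)]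
    simp [fl_zero]
  rw [is_const_of_deriv_eq_zero (fun s => (h1 s).differentiableAt) (fun s => (h1 s).deriv) s 0,
    h2, h2]

theorem th_sympl (hp : 2 ≤ p) {t : ℝ} {a : C3} (h : (t, a) ∈ Dm p) (v w : C3)
    (hv : (fderiv ℝ (fP p) a v).im = 0) (hw : (fderiv ℝ (fP p) a w).im = 0) :
    om3 (fderiv ℝ (fun b => th p (t, b)) a v) (fderiv ℝ (fun b => th p (t, b)) a w) = om3 v w := by
  have h1 : DifferentiableAt ℝ (fun b => tm p (t, b)) a :=
    (((sm_tm hp).contDiffAt ((isOpen_Dm hp).mem_nhds h)).differentiableAt (by simp)).comp a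
      (by fun_prop)
  have h2 := (sm_fl (p := p)).differentiable (by simp) (tm p (t, a), a)
  have h3 : ∀ v, fderiv ℝ (fun b => th p (t, b)) a v =
      (fderiv ℝ (fun b => tm p (t, b)) a v * rho p (th p (t, a))) • gr p (th p (t, a)) +
        fderiv ℝ (fl p) (tm p (t, a), a) (0, v) := fun v => by
    rw [show fderiv ℝ (fun b => th p (t, b)) a = _ from
      (HasFDerivAt.comp (f := fun b => (tm p (t, b), b)) a h2.hasFDerivAt
        (h1.hasFDerivAt.prodMk (hasFDerivAt_id a))).fderiv, mul_smul]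
    have := (hasDerivAt_slice h2).unique (fl_deriv a _)
    rw [show rho p (th p (t, a)) • gr p (th p (t, a)) = _ from this.symm, ← map_smul, ← map_add]
    simp
  have h4 : ∀ v, om3 (gr p (th p (t, a))) (fderiv ℝ (fl p) (tm p (t, a), a) (0, v)) =
      (fderiv ℝ (fP p) a v).im := fun v => (om3_gr _ _).trans (im_dfl _ a v)
  have h5 : om3 (gr p (th p (t, a))) (gr p (th p (t, a))) = 0 := by
    linarith [om3_anti (gr p (th p (t, a))) (gr p (th p (t, a)))]
  rw [h3, h3, om3_add, om3_anti (gr p _), om3_add, h5, om3_anti _ (gr p _), h4, hw,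
    om3_anti, om3_add, h4, hv, ← fl_sympl (p := p) (tm p (t, a)) a v w hv hw,
    om3_anti (fderiv ℝ (fl p) (tm p (t, a), a) (0, v))]
  ring

end

end Pool.Agent.Lib.MP_1c0d65_gt.Flow
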