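import Pool.Agent.Lib.MP_1c0d65_gt.Flow.Basic

/-! The point of an orbit on a given level. -/

set_option autoImplicit false

namespace Pool.Agent.Lib.MP_1c0d65_gt.Flow

open Set Filter Topology Function Complex
open scoped ContDiff ComplexConjugate

noncomputable section

variable {p : ℕ}

theorem nn_small (hp : 2 ≤ p) {ε : ℝ} (hε : 0 < ε) : ∃ δ > 0, ∀ a, nn p a < δ → ‖a‖ < ε := by
  refine ⟨min (ε ^ 2) ((ε ^ (p - 1)) ^ 2), by positivity, fun a h => ?_⟩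
  obtain ⟨h1, h2⟩ := lt_min_iff.1 h
  unfold nn at h1 h2
  have e1 := sq_nonneg ‖a.1‖
  have e2 := sq_nonneg ‖a.2.1‖
  have e3 := sq_nonneg ‖p * a.2.2 ^ (p - 1)‖
  have h3 : ‖p * a.2.2 ^ (p - 1)‖ < ε ^ (p - 1) :=
    lt_of_pow_lt_pow_left₀ 2 (by positivity) (by linarith)
  have h4 : (1 : ℝ) ≤ p := by exact_mod_cast (by omega : 1 ≤ p)
  rw [norm_mul, norm_pow, Complex.norm_natCast] at h3
  rw [Prod.norm_def, Prod.norm_def, max_lt_iff, max_lt_iff]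
  exact ⟨lt_of_pow_lt_pow_left₀ 2 hε.le (by linarith), lt_of_pow_lt_pow_left₀ 2 hε.le (by linarith),
    lt_of_pow_lt_pow_left₀ (p - 1) hε.le ((le_mul_of_one_le_left (by positivity) h4).trans_lt h3)⟩

theorem small_up (hp : 2 ≤ p) {a : C3} {M : ℝ} (h : ∀ s, 0 ≤ s → (fP p (fl p (s, a))).re ≤ M)
    {P : C3 → Prop} (hP : ∀ᶠ b in 𝓝 0, P b) : ∃ s, 0 ≤ s ∧ P (fl p (s, a)) := by
  obtain ⟨ε, hε, h1⟩ := Metric.eventually_nhds_iff.1 hP
  obtain ⟨δ, hδ, h2⟩ := nn_small hp hε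
  obtain ⟨s, hs, h3⟩ := exists_small (m := fun s => nn p (fl p (s, a))) (fun s => nn_nonneg _)
    (dre a) h hδ
  exact ⟨s, hs, h1 (by simpa using h2 _ h3)⟩

theorem small_down (hp : 2 ≤ p) {a : C3} {M : ℝ} (h : ∀ s, s ≤ 0 → M ≤ (fP p (fl p (s, a))).re)
    {P : C3 → Prop} (hP : ∀ᶠ b in 𝓝 0, P b) : ∃ s, s ≤ 0 ∧ P (fl p (s, a)) := by
  obtain ⟨ε, hε, h1⟩ := Metric.eventually_nhds_iff.1 hP
  obtain ⟨δ, hδ, h2⟩ := nn_small hp hε
  obtain ⟨s, hs, h3⟩ := exists_small (m := fun s => nn p (fl p (-s, a)))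
    (φ := fun s => -(fP p (fl p (-s, a))).re) (M := -M) (fun s => nn_nonneg _)
    (fun s => (((dre a (-s)).comp s (hasDerivAt_neg s)).fun_neg).congr_deriv (by
      simp only [rho]; ring)) (fun s hs => neg_le_neg (h _ (by linarith))) hδ
  exact ⟨-s, by linarith, h1 (by simpa using h2 _ h3)⟩

theorem cont_u : Continuous uu := by unfold uu; fun_prop

theorem cont_v : Continuous vv := by unfold vv; fun_prop

theorem tiny (hp : 2 ≤ p) {ε : ℝ} (hε : 0 < ε) : ∀ᶠ b in 𝓝 (0 : C3),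
    ‖uu b‖ < ε ∧ ‖vv b‖ < ε ∧ ‖b.2.2 ^ p‖ < ε ∧ ‖fP p b‖ < ε := by
  have h0 : p ≠ 0 := by omega
  have key : ∀ f : C3 → ℂ, Continuous f → f 0 = 0 → ∀ᶠ b in 𝓝 (0 : C3), ‖f b‖ < ε :=
    fun f hf h => hf.norm.continuousAt.eventually_lt continuousAt_const (by simpa [h] using hε)
  exact (key _ cont_u (by simp [uu])).and ((key _ cont_v (by simp [vv])).and
    ((key (fun b => b.2.2 ^ p) (by fun_prop) (by simp [h0])).and
      (key _ sm_fP.continuous (by simp [fP, h0]))))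

theorem big {δ : ℝ} (hδ : 0 < δ) : ∃ ε > 0, ∀ b : C3,
    ‖uu b‖ < ε → ‖vv b‖ < ε → ‖b.2.2 ^ p‖ < ε → ‖b‖ < δ := by
  refine ⟨min δ (δ ^ p), by positivity, fun b h1 h2 h3 => ?_⟩
  have := norm_xy b
  rw [lt_min_iff] at h1 h2 h3
  rw [Prod.norm_def, Prod.norm_def, max_lt_iff, max_lt_iff]
  exact ⟨by linarith, by linarith, lt_of_pow_lt_pow_left₀ p hδ.le (by rw [← norm_pow]; exact h3.2)⟩

theorem cont_re (a : C3) : Continuous fun s => (fP p (fl p (s, a))).re :=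
  continuous_iff_continuousAt.2 fun s => (dre a s).continuousAt

theorem re_fP (a : C3) : 4 * (fP p a).re = ‖uu a‖ ^ 2 - ‖vv a‖ ^ 2 - 4 * (a.2.2 ^ p).re := by
  rw [← re_xy, fP, sub_re]; ring

theorem mem_thim {a : C3} : a ∈ thim p ↔ vv a = 0 ∧ (a.2.2 ^ p).im = 0 ∧ (a.2.2 ^ p).re ≤ 0 := by
  refine and_congr_left' ⟨fun h => ?_, fun h => ?_⟩
  · simp [vv, show a.2.1 = conj a.1 from h]
  · rw [vv, sub_eq_zero] at h
    rw [h, conj_conj]

theorem reach_up (hp : 2 ≤ p) {a : C3} (ha : a ≠ 0) (h0 : 0 ≤ (fP p a).re) {t : ℝ}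
    (ht : (fP p a).re ≤ t) : ∃ s, 0 ≤ s ∧ (fP p (fl p (s, a))).re = t := by
  by_cases h : ∃ s, 0 ≤ s ∧ t ≤ (fP p (fl p (s, a))).re
  · obtain ⟨s, hs, h⟩ := h
    obtain ⟨r, hr, e⟩ := intermediate_value_Icc hs (cont_re (p := p) a).continuousOn
      (show t ∈ _ from ⟨by simpa [fl_zero] using ht, h⟩)
    exact ⟨r, hr.1, e⟩
  exfalso
  push Not at h
  have key : ∀ ε > 0, ‖uu a‖ ≤ 0 + ε ∧ |(a.2.2 ^ p).im| ≤ 0 + ε ∧ 0 ≤ (a.2.2 ^ p).re + ε :=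
    fun ε hε => by
      obtain ⟨s, hs, h1, -, h2, -⟩ := small_up hp (fun s hs => (h s hs).le) (tiny hp hε)
      have h3 := u_mono (p := p) a hs
      have h4 := zp_anti (p := p) a hs
      have h5 := abs_im_le_norm ((fl p (s, a)).2.2 ^ p)
      have h6 := (abs_le.1 (abs_re_le_norm ((fl p (s, a)).2.2 ^ p))).1
      simp only [fl_zero] at h3 h4
      rw [im_zp] at h5
      exact ⟨by linarith, by linarith, by linarith⟩
  have h1 := le_of_forall_pos_le_add fun ε hε => (key ε hε).1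
  have h2 := le_of_forall_pos_le_add fun ε hε => (key ε hε).2.1
  have h3 := le_of_forall_pos_le_add fun ε hε => (key ε hε).2.2
  have h4 := re_fP (p := p) a
  have h5 : ‖uu a‖ = 0 := le_antisymm h1 (norm_nonneg _)
  have h6 : ‖vv a‖ = 0 := by
    rw [h5] at h4
    exact pow_eq_zero_iff two_ne_zero |>.1 (le_antisymm (by linarith) (sq_nonneg _))
  rw [h5, h6] at h4
  have h7 : a.2.2 ^ p = 0 := Complex.ext (by simp only [zero_re]; linarith) (abs_nonpos_iff.1 h2)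
  have h8 := norm_xy a
  rw [h5, h6] at h8
  exact ha (Prod.ext (norm_le_zero_iff.1 (by linarith [h8.1]))
    (Prod.ext (norm_le_zero_iff.1 (by linarith [h8.2])) (eq_zero_of_pow_eq_zero h7)))

theorem reach_down (hp : 2 ≤ p) {a : C3} {t : ℝ} (ht : t ≤ (fP p a).re) (h0 : 0 ≤ t)
    (h1 : t = 0 → a ∉ thim p) : ∃ s, s ≤ 0 ∧ (fP p (fl p (s, a))).re = t := by
  by_cases h : ∃ s, s ≤ 0 ∧ (fP p (fl p (s, a))).re ≤ t
  · obtain ⟨s, hs, h⟩ := h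
    obtain ⟨r, hr, e⟩ := intermediate_value_Icc hs (cont_re (p := p) a).continuousOn
      (show t ∈ _ from ⟨h, by simpa [fl_zero] using ht⟩)
    exact ⟨r, hr.2, e⟩
  exfalso
  push Not at h
  rcases h0.eq_or_lt with h0 | h0
  · have key : ∀ ε > 0, ‖vv a‖ ≤ 0 + ε ∧ |(a.2.2 ^ p).im| ≤ 0 + ε ∧ (a.2.2 ^ p).re ≤ 0 + ε :=
      fun ε hε => by
        obtain ⟨s, hs, -, h1, h2, -⟩ := small_down hp (fun s hs => (h s hs).le) (tiny hp hε)
        have h3 := v_anti (p := p) a hs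
        have h4 := zp_anti (p := p) a hs
        have h5 := abs_im_le_norm ((fl p (s, a)).2.2 ^ p)
        have h6 := re_le_norm ((fl p (s, a)).2.2 ^ p)
        simp only [fl_zero] at h3 h4
        rw [im_zp] at h5
        exact ⟨by linarith, by linarith, by linarith⟩
    exact h1 h0.symm (mem_thim.2 ⟨norm_le_zero_iff.1 (le_of_forall_pos_le_add fun ε hε =>
      (key ε hε).1), abs_nonpos_iff.1 (le_of_forall_pos_le_add fun ε hε => (key ε hε).2.1),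
      le_of_forall_pos_le_add fun ε hε => (key ε hε).2.2⟩)
  · obtain ⟨s, hs, -, -, -, h2⟩ := small_down hp (fun s hs => (h s hs).le) (tiny hp h0)
    linarith [h s hs, re_le_norm (fP p (fl p (s, a)))]

/-- Time is replaced by the level. -/
def lev (p : ℕ) (q : ℝ × C3) : ℝ × C3 := ((fP p (fl p q)).re, q.2)

/-- The pairs (level, point) such that the orbit of the point meets the level. -/
def Dm (p : ℕ) : Set (ℝ × C3) := lev p '' {q | q.2 ≠ 0}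

/-- The time at which the level is reached. -/
def tm (p : ℕ) (q : ℝ × C3) : ℝ := (invFunOn (lev p) {q | q.2 ≠ 0} q).1

/-- The point of the orbit on the level. -/
def th (p : ℕ) (q : ℝ × C3) : C3 := fl p (tm p q, q.2)

theorem lev_inj (hp : 2 ≤ p) : InjOn (lev p) {q | q.2 ≠ 0} := by
  rintro ⟨s, a⟩ ha ⟨t, b⟩ - h
  obtain ⟨h1, rfl⟩ := Prod.ext_iff.1 h
  exact Prod.ext ((re_mono hp ha).injective h1) rfl

theorem lev_inv (hp : 2 ≤ p) : IsOpen (Dm p) ∧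
    ContDiffOn ℝ ∞ (invFunOn (lev p) {q | q.2 ≠ 0}) (Dm p) := by
  have h1 : ContDiff ℝ ∞ fun q => (fP p (fl p q)).re :=
    reCLM.contDiff.comp (sm_fP.comp sm_fl)
  refine inv_smooth (isOpen_ne_fun continuous_snd continuous_const) (h1.prodMk contDiff_snd)
    (lev_inj hp) ?_
  rintro ⟨s, a⟩ ha
  have h2 := h1.differentiable (by simp) (s, a)
  have h3 := (hasDerivAt_slice h2).unique (dre a s)
  have h4 := mul_pos (rho_pos (p := p) (fl p (s, a))) (nn_pos hp (fl_ne hp ha s))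
  have h5 := h2.hasFDerivAt.prodMk (hasFDerivAt_snd (p := (s, a)))
  set L := (fderiv ℝ (fun q => (fP p (fl p q)).re) (s, a)).prod (ContinuousLinearMap.snd ℝ ℝ C3)
  have h6 : Injective L.toLinearMap := by
    rw [injective_iff_map_eq_zero]
    rintro ⟨σ, ξ⟩ h
    obtain ⟨e1, rfl : ξ = 0⟩ := Prod.ext_iff.1 h
    have e2 : fderiv ℝ (fun q => (fP p (fl p q)).re) (s, a) (σ • (1, 0)) = 0 := by
      rw [show σ • ((1 : ℝ), (0 : C3)) = (σ, 0) by simp]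
      exact e1
    rw [map_smul, h3, smul_eq_mul, mul_eq_zero] at e2
    rw [e2.resolve_right h4.ne']; rfl
  exact ⟨(LinearEquiv.ofInjectiveEndo _ h6).toContinuousLinearEquiv, h5⟩

theorem isOpen_Dm (hp : 2 ≤ p) : IsOpen (Dm p) := (lev_inv hp).1

theorem sm_tm (hp : 2 ≤ p) : ContDiffOn ℝ ∞ (tm p) (Dm p) := (lev_inv hp).2.fst

theorem sm_th (hp : 2 ≤ p) : ContDiffOn ℝ ∞ (th p) (Dm p) :=
  sm_fl.comp_contDiffOn ((sm_tm hp).prodMk contDiffOn_snd)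

theorem mem_Dm {t : ℝ} {a : C3} :
    (t, a) ∈ Dm p ↔ a ≠ 0 ∧ ∃ s, (fP p (fl p (s, a))).re = t := by
  constructor
  · rintro ⟨⟨s, b⟩, hb, h⟩
    obtain ⟨h1, rfl⟩ := Prod.ext_iff.1 h
    exact ⟨hb, s, h1⟩
  · rintro ⟨ha, s, rfl⟩
    exact ⟨(s, a), ha, rfl⟩

theorem tm_eq (hp : 2 ≤ p) {t s : ℝ} {a : C3} (ha : a ≠ 0) (h : (fP p (fl p (s, a))).re = t) :
    tm p (t, a) = s := by
  subst h
  exact congrArg Prod.fst ((lev_inj hp).leftInvOn_invFunOn (x := (s, a)) ha)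

theorem th_eq (hp : 2 ≤ p) {t s : ℝ} {a : C3} (ha : a ≠ 0) (h : (fP p (fl p (s, a))).re = t) :
    th p (t, a) = fl p (s, a) := by rw [th, tm_eq hp ha h]

theorem th_self (hp : 2 ≤ p) {a : C3} (ha : a ≠ 0) :
    ((fP p a).re, a) ∈ Dm p ∧ th p ((fP p a).re, a) = a :=
  ⟨mem_Dm.2 ⟨ha, 0, by rw [fl_zero]⟩, (th_eq hp ha (s := 0) (by rw [fl_zero])).trans (fl_zero a)⟩

theorem th_level (hp : 2 ≤ p) {t : ℝ} {a : C3} (h : (t, a) ∈ Dm p) :
    fP p (th p (t, a)) = t + (fP p a).im * I := by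
  obtain ⟨ha, s, h⟩ := mem_Dm.1 h
  rw [th_eq hp ha h, ← h, ← im_fP a s, re_add_im]

theorem th_ne (hp : 2 ≤ p) {t : ℝ} {a : C3} (h : (t, a) ∈ Dm p) : th p (t, a) ≠ 0 :=
  fl_ne hp (mem_Dm.1 h).1 _

theorem Dm_trans (hp : 2 ≤ p) {s t : ℝ} {a : C3} (h : (t, a) ∈ Dm p) :
    (s, th p (t, a)) ∈ Dm p ↔ (s, a) ∈ Dm p := by
  rw [mem_Dm, mem_Dm, th]
  refine ⟨fun ⟨_, r, e⟩ => ⟨(mem_Dm.1 h).1, _, by rw [fl_add]; exact e⟩,
    fun ⟨_, r, e⟩ => ⟨th_ne hp h, r - tm p (t, a), ?_⟩⟩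
  rw [← fl_add, sub_add_cancel]; exact e

theorem th_trans (hp : 2 ≤ p) {s t : ℝ} {a : C3} (h : (t, a) ∈ Dm p) (h' : (s, a) ∈ Dm p) :
    th p (s, th p (t, a)) = th p (s, a) := by
  obtain ⟨ha, r, e⟩ := mem_Dm.1 h'
  have : fl p (r - tm p (t, a), th p (t, a)) = fl p (r, a) := by
    rw [th, ← fl_add, sub_add_cancel]
  rw [th_eq hp (th_ne hp h) (s := r - tm p (t, a)) (by rw [this, e]), th_eq hp ha e, this]

/-- Going to the level `t` and back. -/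
theorem th_back (hp : 2 ≤ p) {t : ℝ} {a : C3} (h : (t, a) ∈ Dm p) :
    ((fP p a).re, th p (t, a)) ∈ Dm p ∧ th p ((fP p a).re, th p (t, a)) = a := by
  have := th_self hp (mem_Dm.1 h).1
  exact ⟨(Dm_trans hp h).2 this.1, (th_trans hp h this.1).trans this.2⟩

theorem th_ac (hp : 2 ≤ p) {c d : ℂ} (hc : ‖c‖ = 1) (hd : d ^ p = 1) {t : ℝ} {a : C3}
    (h : (t, a) ∈ Dm p) : (t, ac c d a) ∈ Dm p ∧ th p (t, ac c d a) = ac c d (th p (t, a)) := by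
  obtain ⟨ha, s, e⟩ := mem_Dm.1 h
  have h1 : c ≠ 0 := fun h => by simp [h] at hc
  have h2 : d ≠ 0 := fun h => by simp [h, show p ≠ 0 by omega] at hd
  have h3 : ac c d a ≠ 0 := fun h => ha (by simpa [ac_apply, h1, h2, Prod.ext_iff] using h)
  have h4 : (fP p (fl p (s, ac c d a))).re = t := by rw [fl_ac hp hc hd, fP_ac hc hd, e]
  exact ⟨mem_Dm.2 ⟨h3, s, h4⟩, by rw [th_eq hp h3 h4, th_eq hp ha e, fl_ac hp hc hd]⟩

theorem Dm_up (hp : 2 ≤ p) {a : C3} (ha : a ≠ 0) (h0 : 0 ≤ (fP p a).re) {t : ℝ}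
    (ht : (fP p a).re ≤ t) : (t, a) ∈ Dm p :=
  mem_Dm.2 ⟨ha, (reach_up hp ha h0 ht).imp fun _ h => h.2⟩

theorem Dm_down (hp : 2 ≤ p) {a : C3} (ha : a ≠ 0) {t : ℝ} (ht : t ≤ (fP p a).re) (h0 : 0 ≤ t)
    (h1 : t = 0 → a ∉ thim p) : (t, a) ∈ Dm p :=
  mem_Dm.2 ⟨ha, (reach_down hp ht h0 h1).imp fun _ h => h.2⟩

end

end Pool.Agent.Lib.MP_1c0d65_gt.Flow
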